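import Pool.Agent.Helper44.GM.DetDeriv

set_option autoImplicit false

namespace Pool.Agent.Helper44.GM

open Matrix Polynomial

variable {F : Type*} [Field F] {A B : Type*} [Ring A] [Ring B] [Algebra F A] [Algebra F B]
  {ι κ : Type*} [Fintype ι] [DecidableEq ι] [Fintype κ] [DecidableEq κ]

/-- `X + ε Y` over the dual numbers. -/
noncomputable def dmat {n : Type*} (X Y : Matrix n n F) : Matrix n n (DualNumber F) :=
  X.map (TrivSqZeroExt.inl : F → DualNumber F) +
      (DualNumber.eps : DualNumber F) • Y.map (TrivSqZeroExt.inl : F → DualNumber F)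

theorem dmat_coeff_fst {n : Type*} [Fintype n] [DecidableEq n] (X Y : Matrix n n F) (j : ℕ) :
    ((dmat X Y).charpoly.coeff j).fst = X.charpoly.coeff j := by
  rw [dmat, charpoly_dual_coeff]
  simp

theorem dmat_coeff_snd {n : Type*} [Fintype n] [DecidableEq n] (X Y : Matrix n n F) (j : ℕ) :
    ((dmat X Y).charpoly.coeff j).snd = -(bmat X j * Y).trace := by
  rw [dmat, charpoly_dual_coeff]
  simp

section coeffs

variable {n : Type*} [Fintype n] [DecidableEq n] (X : Matrix n n F) {m : ℕ}

theorem lead_coeff (hn : Fintype.card n = m + 5) : X.charpoly.coeff (m + 5) = 1 := by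
  have h1 := X.charpoly_monic
  rw [Monic, leadingCoeff, X.charpoly_natDegree_eq_dim, hn] at h1
  exact h1

theorem b4 (hn : Fintype.card n = m + 5) : bmat X (m + 4) = 1 := by
  rw [bmat_rec, lead_coeff X hn, bmat_eq_zero X (m + 5) (by omega)]
  simp

theorem b3 (hn : Fintype.card n = m + 5) :
    bmat X (m + 3) = X.charpoly.coeff (m + 4) • 1 + X := by
  rw [bmat_rec, b4 X hn, one_mul]

theorem b2 (hn : Fintype.card n = m + 5) :
    bmat X (m + 2) = X.charpoly.coeff (m + 3) • 1 + X.charpoly.coeff (m + 4) • X + X ^ 2 := by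
  rw [bmat_rec, b3 X hn, add_mul, smul_mul_assoc, one_mul, pow_two, ← add_assoc]

theorem b1 (hn : Fintype.card n = m + 5) :
    bmat X (m + 1) = X.charpoly.coeff (m + 2) • 1 + X.charpoly.coeff (m + 3) • X
        + X.charpoly.coeff (m + 4) • X ^ 2 + X ^ 3 := by
  rw [bmat_rec, b2 X hn, add_mul, add_mul, smul_mul_assoc, smul_mul_assoc, one_mul, ← pow_two,
      ← pow_succ, ← add_assoc, ← add_assoc]

end coeffs

theorem core (Φ : A →ₐ[F] Matrix ι ι F) (Ψ : B →ₐ[F] Matrix κ κ F)
    (hcard : Fintype.card ι = Fintype.card κ) (π : A ≃ₗ[F] B)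
    (hΨ : ∀ b, (∀ c, (Ψ (b * c)).trace = 0) → b = 0)
    (H : ∀ x y : A, ∀ j, 1 ≤ j →
      (dmat (Φ x) (Φ y)).charpoly.coeff j = (dmat (Ψ (π x)) (Ψ (π y))).charpoly.coeff j)
    (h5 : 5 ≤ Fintype.card ι) :
    π 1 = 1 ∧ (∀ x, π (x ^ 2) = (π x) ^ 2) ∧ (∀ x, π (x ^ 3) = (π x) ^ 3) := by
  have Hp : ∀ x, ∀ j, 1 ≤ j → (Φ x).charpoly.coeff j = (Ψ (π x)).charpoly.coeff j := by
    intro x j hj
    have := congrArg TrivSqZeroExt.fst (H x 0 j hj)
    rwa [dmat_coeff_fst, dmat_coeff_fst] at this
  have Hb : ∀ x y, ∀ j, 1 ≤ j →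
      (bmat (Φ x) j * Φ y).trace = (bmat (Ψ (π x)) j * Ψ (π y)).trace := by
    intro x y j hj
    have := congrArg TrivSqZeroExt.snd (H x y j hj)
    rw [dmat_coeff_snd, dmat_coeff_snd] at this
    exact neg_injective this
  obtain ⟨m, hm⟩ : ∃ m, Fintype.card ι = m + 5 := ⟨Fintype.card ι - 5, by omega⟩
  have hm' : Fintype.card κ = m + 5 := by omega
  have hι : Nonempty ι := Fintype.card_pos_iff.mp (by omega)
  have hκ : Nonempty κ := Fintype.card_pos_iff.mp (by omega)
  have t0 : ∀ y, (Φ y).trace = (Ψ (π y)).trace := by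
    intro y
    have := Hb 1 y (m + 4) (by omega)
    rwa [b4 _ hm, b4 _ hm', one_mul, one_mul] at this
  have t1 : ∀ x y, (Φ (x * y)).trace = (Ψ (π x * π y)).trace := by
    intro x y
    have := Hb x y (m + 3) (by omega)
    rw [b3 _ hm, b3 _ hm', add_mul, add_mul, trace_add, trace_add, smul_mul_assoc, smul_mul_assoc,
      one_mul, one_mul, trace_smul, trace_smul, t0 y, Hp x _ (by omega)] at this
    have := add_left_cancel this
    rw [map_mul, map_mul]
    exact this
  have t2 : ∀ x y, (Φ (x ^ 2 * y)).trace = (Ψ ((π x) ^ 2 * π y)).trace := by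
    intro x y
    have := Hb x y (m + 2) (by omega)
    have h1 := t1 x y
    rw [map_mul, map_mul] at h1
    rw [b2 _ hm, b2 _ hm', add_mul, add_mul, add_mul, add_mul, trace_add, trace_add, trace_add,
      trace_add, smul_mul_assoc, smul_mul_assoc, smul_mul_assoc, smul_mul_assoc,
      one_mul, one_mul, trace_smul, trace_smul, trace_smul, trace_smul, t0 y, h1,
      Hp x _ (by omega), Hp x _ (by omega)] at this
    have := add_left_cancel this
    rw [map_mul, map_mul, map_pow, map_pow]
    exact this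
  have t3 : ∀ x y, (Φ (x ^ 3 * y)).trace = (Ψ ((π x) ^ 3 * π y)).trace := by
    intro x y
    have := Hb x y (m + 1) (by omega)
    have h1 := t1 x y
    have h2 := t2 x y
    rw [map_mul, map_mul] at h1
    rw [map_mul, map_mul, map_pow, map_pow] at h2
    rw [b1 _ hm, b1 _ hm', add_mul, add_mul, add_mul, add_mul, add_mul, add_mul, trace_add,
      trace_add, trace_add, trace_add, trace_add, trace_add, smul_mul_assoc, smul_mul_assoc,
      smul_mul_assoc, smul_mul_assoc, smul_mul_assoc, smul_mul_assoc,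
      one_mul, one_mul, trace_smul, trace_smul, trace_smul, trace_smul, trace_smul, trace_smul,
      t0 y, h1, h2, Hp x _ (by omega), Hp x _ (by omega), Hp x _ (by omega)] at this
    have := add_left_cancel this
    rw [map_mul, map_mul, map_pow, map_pow]
    exact this
  -- conclude by nondegeneracy
  have conc : ∀ a a', (∀ y, (Φ (a * y)).trace = (Ψ (a' * π y)).trace) → π a = a' := by
    intro a a' h
    have : π a - a' = 0 := by
      apply hΨ
      intro c
      obtain ⟨y, rfl⟩ := π.surjective c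
      rw [sub_mul, map_sub, trace_sub, ← t1 a y, h y, sub_self]
    exact sub_eq_zero.mp this
  refine ⟨conc 1 1 ?_, fun x => conc _ _ (t2 x), fun x => conc _ _ (t3 x)⟩
  intro y
  rw [one_mul, one_mul]
  exact t0 y

end Pool.Agent.Helper44.GM
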