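import Mathlib

set_option autoImplicit false

namespace Pool.Agent.Helper44.GM

open Matrix Polynomial

variable {R : Type*} [CommRing R] {n : Type*} [Fintype n] [DecidableEq n]

/-- First order expansion of the determinant at an element `e` with `e ^ 2 = 0`. -/
theorem det_add_smul_of_sq_zero (M N : Matrix n n R) (e : R) (he : e * e = 0) :
    (M + e • N).det = M.det + e * (M.adjugate * N).trace := by
  set D : MultilinearMap R (fun _ : n => n → R) R :=
    (Matrix.detRowAlternating (n := n) (R := R)).toMultilinearMap with hD
  have hDdet : ∀ A : Matrix n n R, D (fun i j => A j i) = A.det := by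
    intro A
    rw [← Matrix.det_transpose A]
    rfl
  set M' : n → n → R := fun i j => M j i with hM'
  set N' : n → n → R := fun i j => N j i with hN'
  have key := D.map_add_eq_map_add_linearDeriv_add M' (e • N')
  have h1 : D (M' + e • N') = (M + e • N).det := by
    rw [← hDdet (M + e • N)]
    rfl
  have h2 : D M' = M.det := hDdet M
  have h3 : (D.linearDeriv M') (e • N') = e * (M.adjugate * N).trace := by
    rw [MultilinearMap.linearDeriv_apply]
    have : ∀ i, D (Function.update M' i ((e • N') i)) = e * (M.adjugate * N) i i := by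
      intro i
      rw [Pi.smul_apply, MultilinearMap.map_update_smul]
      have a2 : D (Function.update M' i (N' i)) = M.cramer (N' i) i := by
        rw [Matrix.cramer_apply, ← hDdet]
        congr 1
        funext a b
        by_cases ha : a = i
        · subst ha; simp
        · simp [Function.update_of_ne ha, Matrix.updateCol_ne ha, hM']
      rw [a2, Matrix.cramer_eq_adjugate_mulVec, smul_eq_mul]
      rfl
    simp only [this]
    rw [← Finset.mul_sum]
    rfl
  have h4 : ∑ s : Finset n with 2 ≤ s.card, D (s.piecewise (e • N') M') = 0 := by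
    apply Finset.sum_eq_zero
    intro s hs
    simp only [Finset.mem_filter, Finset.mem_univ, true_and] at hs
    have b1 : (s.piecewise (e • N') M') =
        s.piecewise (fun i => e • (s.piecewise N' M') i) (s.piecewise N' M') := by
      ext i j
      by_cases hi : i ∈ s <;> simp [Finset.piecewise, hi]
    rw [b1, MultilinearMap.map_piecewise_smul]
    have b2 : ∏ i ∈ s, e = 0 := by
      rw [Finset.prod_const]
      obtain ⟨k, hk⟩ := Nat.exists_eq_add_of_le hs
      rw [hk, pow_add, pow_two, he, zero_mul]
    rw [b2, zero_smul]
  rw [h1, h2, h3, h4, add_zero] at key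
  exact key

/-- The coefficient matrices of the adjugate of the characteristic matrix. -/
noncomputable def bmat (X : Matrix n n R) (j : ℕ) : Matrix n n R :=
  fun a b => ((charmatrix X).adjugate a b).coeff j

theorem bmat_rec (X : Matrix n n R) (j : ℕ) :
    bmat X j = X.charpoly.coeff (j + 1) • (1 : Matrix n n R) + bmat X (j + 1) * X := by
  have h : (charmatrix X).adjugate * charmatrix X = X.charpoly • (1 : Matrix n n R[X]) :=
    Matrix.adjugate_mul _
  ext a b
  have hab := congrArg (fun M : Matrix n n R[X] => (M a b).coeff (j + 1)) h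
  simp only [Matrix.mul_apply, Matrix.smul_apply, Matrix.one_apply, charmatrix_apply,
    smul_eq_mul, Polynomial.finsetSum_coeff] at hab
  have e1 : ∀ k, ((charmatrix X).adjugate a k * (Matrix.diagonal (fun _ : n => (Polynomial.X : R[X])) k b - C (X k b))).coeff (j + 1)
      = (if k = b then ((charmatrix X).adjugate a k).coeff j else 0)
        - bmat X (j + 1) a k * X k b := by
    intro k
    rw [mul_sub, Polynomial.coeff_sub, Polynomial.coeff_mul_C]
    congr 1
    by_cases hk : k = b
    · subst hk
      simp [Polynomial.coeff_mul_X]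
    · simp [hk]
  simp only [e1] at hab
  rw [Finset.sum_sub_distrib, Finset.sum_ite_eq' Finset.univ b] at hab
  simp only [Finset.mem_univ, if_true] at hab
  have e2 : (X.charpoly * (if a = b then 1 else 0) : R[X]).coeff (j + 1)
      = X.charpoly.coeff (j + 1) * (if a = b then 1 else 0) := by
    by_cases h : a = b <;> simp [h]
  rw [e2] at hab
  simp only [Matrix.add_apply, Matrix.smul_apply, Matrix.one_apply, smul_eq_mul, Matrix.mul_apply]
  rw [← hab]
  simp [bmat]

theorem bmat_eq_zero [Nontrivial R] (X : Matrix n n R) (j : ℕ) (hj : Fintype.card n ≤ j) :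
    bmat X j = 0 := by
  -- descending: bmat j = bmat (j+m) * X^m
  have h1 : ∀ m, bmat X j = bmat X (j + m) * X ^ m := by
    intro m
    induction m with
    | zero => simp
    | succ m ih =>
      rw [ih, bmat_rec X (j + m)]
      have : X.charpoly.coeff (j + m + 1) = 0 := by
        apply Polynomial.coeff_eq_zero_of_natDegree_lt
        rw [Matrix.charpoly_natDegree_eq_dim]
        omega
      rw [this, zero_smul, zero_add, pow_succ', ← mul_assoc, add_assoc]
  -- choose m large
  obtain ⟨m, hm⟩ : ∃ m, ∀ a b, ((charmatrix X).adjugate a b).natDegree < m := by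
    refine ⟨(Finset.univ.sup fun a => Finset.univ.sup fun b =>
      ((charmatrix X).adjugate a b).natDegree) + 1, fun a b => ?_⟩
    refine Nat.lt_succ_of_le ?_
    refine le_trans ?_ (Finset.le_sup (f := fun a => Finset.univ.sup fun b =>
      ((charmatrix X).adjugate a b).natDegree) (Finset.mem_univ a))
    exact Finset.le_sup (f := fun b => ((charmatrix X).adjugate a b).natDegree) (Finset.mem_univ b)
  have h2 : bmat X (j + m) = 0 := by
    ext a b
    apply Polynomial.coeff_eq_zero_of_natDegree_lt
    exact lt_of_lt_of_le (hm a b) (by omega)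
  rw [h1 m, h2, zero_mul]

/-- First order expansion of the coefficients of the characteristic polynomial over the dual
numbers. -/
theorem charpoly_dual_coeff (X Y : Matrix n n R) (j : ℕ) :
    (X.map (TrivSqZeroExt.inl : R → DualNumber R) +
      (DualNumber.eps : DualNumber R) • Y.map (TrivSqZeroExt.inl : R → DualNumber R)).charpoly.coeff j
      = TrivSqZeroExt.inl (X.charpoly.coeff j)
        - (DualNumber.eps : DualNumber R) * TrivSqZeroExt.inl ((bmat X j * Y).trace) := by
  set ι : R →+* DualNumber R := TrivSqZeroExt.inlHom R R with hι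
  have hcoe : (TrivSqZeroExt.inl : R → DualNumber R) = ι := rfl
  rw [hcoe]
  set ε : DualNumber R := DualNumber.eps with hε
  have hεε : ε * ε = 0 := DualNumber.eps_mul_eps
  have hA : charmatrix (X.map ι + ε • Y.map ι) =
      (charmatrix X).map (Polynomial.map ι) + (C ε) • (-(Y.map (fun r => C (ι r)))) := by
    apply Matrix.ext
    intro a b
    simp only [charmatrix_apply, Matrix.add_apply, Matrix.map_apply, Matrix.smul_apply,
      Matrix.neg_apply, smul_eq_mul, map_add, map_mul]
    by_cases hab : a = b
    · subst hab
      rw [Matrix.diagonal_apply_eq, Matrix.diagonal_apply_eq, Polynomial.map_sub, Polynomial.map_X,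
        Polynomial.map_C]
      ring
    · rw [Matrix.diagonal_apply_ne _ hab, Matrix.diagonal_apply_ne _ hab, Polynomial.map_sub,
        Polynomial.map_zero, Polynomial.map_C]
      ring
  rw [Matrix.charpoly, hA]
  have hM : (charmatrix X).map (Polynomial.map ι) = (Polynomial.mapRingHom ι).mapMatrix (charmatrix X) := rfl
  rw [hM, det_add_smul_of_sq_zero _ _ _ (by rw [← C_mul, hεε, C_0])]
  rw [← RingHom.map_det, ← RingHom.map_adjugate]
  rw [Polynomial.coeff_add, Polynomial.coeff_C_mul]
  have h1 : ((Polynomial.mapRingHom ι) (charmatrix X).det).coeff j = ι (X.charpoly.coeff j) := by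
    rw [Polynomial.coe_mapRingHom, Polynomial.coeff_map]
    rfl
  have h2 : (((Polynomial.mapRingHom ι).mapMatrix (charmatrix X).adjugate *
      -(Y.map (fun r => C (ι r)))).trace).coeff j = - ι ((bmat X j * Y).trace) := by
    simp only [Matrix.trace, Matrix.diag, Matrix.mul_apply, Polynomial.finsetSum_coeff]
    rw [map_sum, ← Finset.sum_neg_distrib]
    apply Finset.sum_congr rfl
    intro a _
    rw [map_sum, ← Finset.sum_neg_distrib]
    apply Finset.sum_congr rfl
    intro b _
    have q1 : ((Polynomial.mapRingHom ι).mapMatrix (charmatrix X).adjugate) a b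
      = ((charmatrix X).adjugate a b).map ι := rfl
    have q2 : (-(Y.map (fun r => C (ι r)))) b a = C (-(ι (Y b a))) := by
      rw [Matrix.neg_apply, Matrix.map_apply, C_neg]
    rw [q1, q2, Polynomial.coeff_mul_C, Polynomial.coeff_map, map_mul, mul_neg]
    rfl
  rw [h1, h2]
  rw [mul_neg, ← sub_eq_add_neg]

end Pool.Agent.Helper44.GM
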