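import Pool.Agent.Helper44.GM.Generic

set_option autoImplicit false

namespace Pool.Agent.Helper44.GM

open Matrix Polynomial

section generic

variable {K F : Type*} [Field K] [Field F] [Algebra K F] {G H : Type*} [Group H] [Fintype G]
  {ι : Type*} [Fintype ι] [DecidableEq ι]

/-- The generic matrix over the polynomial ring. -/
noncomputable def genMat (Φ : MonoidAlgebra F H →ₐ[F] Matrix ι ι F) (π : G ≃ H) :
    Matrix ι ι (MvPolynomial G F) :=
  ∑ g : G, (MvPolynomial.X g : MvPolynomial G F) •
    (Φ (MonoidAlgebra.single (π g) 1)).map MvPolynomial.C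

omit [Fintype ι] [DecidableEq ι] in
theorem matrix_map_sum {α : Type*} (s : Finset α) {R S : Type*} [CommRing R] [CommRing S]
    (φ : R →+* S) (M : α → Matrix ι ι R) :
    (∑ a ∈ s, M a).map φ = ∑ a ∈ s, (M a).map φ := by
  ext i k
  simp [Matrix.sum_apply]

theorem genMat_map {S : Type*} [CommRing S] (φ : MvPolynomial G F →+* S)
    (Φ : MonoidAlgebra F H →ₐ[F] Matrix ι ι F) (π : G ≃ H) :
    (genMat Φ π).map φ =
      ∑ g : G, φ (MvPolynomial.X g) • (Φ (MonoidAlgebra.single (π g) 1)).map (φ.comp MvPolynomial.C) := by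
  rw [genMat, matrix_map_sum]
  apply Finset.sum_congr rfl
  intro g _
  ext i k
  simp

theorem genMat_eval (Φ : MonoidAlgebra F H →ₐ[F] Matrix ι ι F) (π : G ≃ H) (x : MonoidAlgebra F H) :
    (genMat Φ π).map (MvPolynomial.eval (fun g => x.coeff (π g))) = Φ x := by
  rw [genMat_map]
  have : Fintype H := Fintype.ofEquiv G π
  have hx : x = ∑ g : G, x.coeff (π g) • (MonoidAlgebra.single (π g) 1 : MonoidAlgebra F H) := by
    conv_lhs => rw [← MonoidAlgebra.sum_coeff_single x]
    rw [Finsupp.sum_fintype _ _ (fun i => MonoidAlgebra.single_zero i)]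
    rw [← π.sum_comp]
    apply Finset.sum_congr rfl
    intro h _
    rw [MonoidAlgebra.smul_single, smul_eq_mul, mul_one]
  conv_rhs => rw [hx]
  rw [map_sum]
  apply Finset.sum_congr rfl
  intro g _
  rw [map_smul, MvPolynomial.eval_X]
  congr 1
  ext i k
  simp

theorem gram_ne_zero (Φ : MonoidAlgebra F H →ₐ[F] Matrix ι ι F) (π : G ≃ H)
    (hdiag : ∃ x0, ∃ w : ι → F, Function.Injective w ∧ Φ x0 = Matrix.diagonal w) :
    (Matrix.of fun i k : Fin (Fintype.card ι) =>
      ((genMat Φ π) ^ (i.val + k.val)).trace).det ≠ 0 := by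
  obtain ⟨x0, w, hw, hx0⟩ := hdiag
  intro h
  set φ : MvPolynomial G F →+* F := MvPolynomial.eval (fun g => x0.coeff (π g)) with hφ
  have h1 := congrArg φ h
  rw [map_zero, RingHom.map_det] at h1
  set e := Fintype.equivFin ι with he
  set V := Matrix.vandermonde (fun a => w (e.symm a)) with hV
  have h2 : φ.mapMatrix (Matrix.of fun i k : Fin (Fintype.card ι) =>
      ((genMat Φ π) ^ (i.val + k.val)).trace) = V.transpose * V := by
    ext i k
    rw [RingHom.mapMatrix_apply, Matrix.map_apply, Matrix.of_apply, Matrix.mul_apply]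
    have h3 : φ ((genMat Φ π) ^ (i.val + k.val)).trace =
        (((genMat Φ π).map φ) ^ (i.val + k.val)).trace := by
      rw [← RingHom.mapMatrix_apply, ← map_pow, RingHom.mapMatrix_apply]
      simp only [Matrix.trace, Matrix.diag, Matrix.map_apply, map_sum]
    rw [h3, hφ, genMat_eval, hx0, Matrix.diagonal_pow, Matrix.trace_diagonal, ← e.symm.sum_comp]
    apply Finset.sum_congr rfl
    intro a _
    rw [Matrix.transpose_apply, hV, Matrix.vandermonde_apply, Matrix.vandermonde_apply, ← pow_add,
      Pi.pow_apply]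
  rw [h2, Matrix.det_mul, Matrix.det_transpose] at h1
  have h4 := mul_self_eq_zero.mp h1
  exact (Matrix.det_vandermonde_ne_zero_iff.mpr (hw.comp e.symm.injective)) h4

/-- Embedding of the rational function field over `K` in the one over `F`. -/
noncomputable def jmap (K F G : Type*) [Field K] [Field F] [Algebra K F] :
    FractionRing (MvPolynomial G K) →+* FractionRing (MvPolynomial G F) :=
  IsFractionRing.map (A := MvPolynomial G K) (B := MvPolynomial G F)
    (K := FractionRing (MvPolynomial G K)) (L := FractionRing (MvPolynomial G F))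
    (j := MvPolynomial.map (algebraMap K F))
    (MvPolynomial.map_injective _ (algebraMap K F).injective)

omit [Fintype G] in
theorem jmap_algebraMap (p : MvPolynomial G K) :
    jmap K F G (algebraMap _ _ p) = algebraMap _ _ (MvPolynomial.map (algebraMap K F) p) := by
  rw [jmap, IsFractionRing.map]
  exact IsLocalization.map_eq _ _

theorem minpoly_generic [Fintype H] [DecidableEq H]
    (Φ : MonoidAlgebra F H →ₐ[F] Matrix ι ι F) (π : G ≃ H)
    (hΦ : ∀ a, (∀ b, (Φ (a * b)).trace = 0) → a = 0)
    (hdiag : ∃ x0, ∃ w : ι → F, Function.Injective w ∧ Φ x0 = Matrix.diagonal w)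
    (hpos : 0 < Fintype.card ι) :
    (minpoly (FractionRing (MvPolynomial G K))
      (∑ g : G, (algebraMap (MvPolynomial G K) (FractionRing (MvPolynomial G K))
        (MvPolynomial.X g)) •
          MonoidAlgebra.single (π g) (1 : FractionRing (MvPolynomial G K)))).map (jmap K F G) =
    (genMat Φ π).charpoly.map (algebraMap (MvPolynomial G F) (FractionRing (MvPolynomial G F))) := by
  set L := FractionRing (MvPolynomial G K) with hL
  set L' := FractionRing (MvPolynomial G F) with hL'
  set x : MonoidAlgebra L H := ∑ g : G, (algebraMap (MvPolynomial G K) L (MvPolynomial.X g)) •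
    MonoidAlgebra.single (π g) (1 : L) with hx
  have hX : extRep L' Φ (MonoidAlgebra.mapRingHom H (jmap K F G) x) =
      (genMat Φ π).map (algebraMap (MvPolynomial G F) L') := by
    rw [hx, map_sum, map_sum, genMat_map]
    apply Finset.sum_congr rfl
    intro g _
    rw [MonoidAlgebra.smul_single, smul_eq_mul, mul_one, MonoidAlgebra.mapRingHom_single,
      jmap_algebraMap, MvPolynomial.map_X, extRep_single]
    rfl
  have hG : (Matrix.of fun i k : Fin (Fintype.card ι) =>
      ((extRep L' Φ (MonoidAlgebra.mapRingHom H (jmap K F G) x)) ^ (i.val + k.val)).trace).det ≠ 0 := by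
    rw [hX]
    intro h
    apply gram_ne_zero Φ π hdiag
    apply IsFractionRing.injective (MvPolynomial G F) L'
    rw [map_zero, ← h, RingHom.map_det]
    congr 1
    ext i k
    rw [RingHom.mapMatrix_apply, Matrix.map_apply, Matrix.of_apply, Matrix.of_apply,
      ← RingHom.mapMatrix_apply, ← map_pow, RingHom.mapMatrix_apply]
    simp only [Matrix.trace, Matrix.diag, Matrix.map_apply, map_sum]
  rw [minpoly_map_eq (jmap K F G) Φ hΦ x hG hpos, hX, Matrix.charpoly_map]

end generic

end Pool.Agent.Helper44.GM
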