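import Pool.Agent.Helper44.GM.HalfHom

set_option autoImplicit false

namespace Pool.Agent.Helper44.GM

open MonoidAlgebra

theorem cubexp {F : Type*} [Field F] [CharP F 2] (s : F) {K : Type*} [Group K] (g h : K)
    (hgh : g * h = h * g) :
    (single g (1 : F) + single h s) ^ 3 = single (g * g * g) 1 + single (h * h * h) (s ^ 3) +
        (single (g * g * h) s + single (g * h * h) (s ^ 2)) := by
  have two : (1 : F) + 1 = 0 := CharTwo.add_self_eq_zero 1
  have three : (1 : F) + 1 + 1 = 1 := by rw [two, zero_add]
  have hc : Commute (single g (1 : F)) (single h s) := by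
    show single g (1 : F) * single h s = single h s * single g 1
    rw [single_mul_single, single_mul_single, hgh, mul_comm]
  have t : (single g (1 : F) + single h s) ^ 3 = single g (1 : F) ^ 3 + single h s ^ 3 +
      (3 • (single g (1 : F) ^ 2 * single h s) + 3 • (single g (1 : F) * single h s ^ 2)) := by
    have e := hc.eq
    have e' : single h s * single g (1 : F) = single g (1 : F) * single h s := e.symm
    rw [hc.add_pow]
    simp only [Finset.sum_range_succ, Finset.sum_range_zero, zero_add, pow_zero, one_mul,
      Nat.sub_zero, Nat.choose_zero_right, Nat.cast_one, mul_one, pow_one, Nat.choose_self,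
      Nat.sub_self, Nat.choose_one_right]
    have c2 : Nat.choose 3 2 = 3 := rfl
    rw [c2]
    simp only [Nat.cast_ofNat, nsmul_eq_mul]
    have e3 : ∀ x : MonoidAlgebra F K, x * 3 = 3 * x := by
      intro x
      have : ((3 : ℕ) : MonoidAlgebra F K) * x = x * ((3 : ℕ) : MonoidAlgebra F K) :=
        Nat.cast_commute 3 x
      simpa using this.symm
    rw [e3, e3]
    norm_num
    abel
  have three' : ∀ x : MonoidAlgebra F K, 3 • x = x := by
    intro x
    have : (3 : ℕ) • x = ((3 : ℕ) : F) • x := (Nat.cast_smul_eq_nsmul F 3 x).symm
    rw [this]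
    have h3' : ((3 : ℕ) : F) = 1 := by
      push_cast
      have : (3 : F) = 1 + 1 + 1 := by norm_num
      rw [this, three]
    rw [h3', one_smul]
  rw [t, three', three']
  simp only [pow_succ, pow_zero, one_mul, single_mul_single, mul_one, mul_assoc]

theorem half_of_powers {F : Type*} [Field F] [CharP F 2] (s : F) (hs0 : s ≠ 0) (hs1 : s ≠ 1)
    {G H : Type*} [Group G] [Group H] [Finite G] (hodd : Odd (Nat.card G)) (π : G ≃ H)
    (h2 : ∀ x : MonoidAlgebra F G, MonoidAlgebra.mapDomainLinearEquiv F F π (x ^ 2) =
      (MonoidAlgebra.mapDomainLinearEquiv F F π x) ^ 2)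
    (h3 : ∀ x : MonoidAlgebra F G, MonoidAlgebra.mapDomainLinearEquiv F F π (x ^ 3) =
      (MonoidAlgebra.mapDomainLinearEquiv F F π x) ^ 3) :
    ∀ g h, (π (g * h) = π g * π h ∧ π (h * g) = π h * π g) ∨
      (π (g * h) = π h * π g ∧ π (h * g) = π g * π h) := by
  set P := MonoidAlgebra.mapDomainLinearEquiv F F π with hP
  have two : (1 : F) + 1 = 0 := CharTwo.add_self_eq_zero 1
  have Ps : ∀ (g : G) (r : F), P (single g r) = single (π g) r := by
    intro g r
    rw [hP, MonoidAlgebra.mapDomainLinearEquiv_single]
  -- squares
  have sq : ∀ g, π (g * g) = π g * π g := by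
    intro g
    have := h2 (single g 1)
    rw [pow_two, single_mul_single, one_mul, Ps, Ps, pow_two, single_mul_single, one_mul] at this
    exact (MonoidAlgebra.single_left_inj one_ne_zero).mp this
  have cube : ∀ g, π (g * g * g) = π g * π g * π g := by
    intro g
    have := h3 (single g 1)
    rw [pow_succ, pow_two, single_mul_single, single_mul_single, one_mul, one_mul, Ps, Ps,
      pow_succ, pow_two, single_mul_single, single_mul_single, one_mul, one_mul] at this
    exact (MonoidAlgebra.single_left_inj one_ne_zero).mp this
  have key : ∀ g h, (π (g * h) = π g * π h ∧ π (h * g) = π h * π g) ∨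
      (π (g * h) = π h * π g ∧ π (h * g) = π g * π h) ∨
      (π (g * h) = π (h * g) ∧ π g * π h = π h * π g) := by
    intro g h
    have := h2 (single g 1 + single h 1)
    have e1 : (single g (1 : F) + single h 1) ^ 2 = single (g * g) 1 + single (h * h) 1 +
        (single (g * h) 1 + single (h * g) 1) := by
      rw [pow_two, mul_add, add_mul, add_mul]
      simp only [single_mul_single, one_mul]
      abel
    have e2 : (single (π g) (1 : F) + single (π h) 1) ^ 2 =
        single (π g * π g) 1 + single (π h * π h) 1 +
        (single (π g * π h) 1 + single (π h * π g) 1) := by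
      rw [pow_two, mul_add, add_mul, add_mul]
      simp only [single_mul_single, one_mul]
      abel
    rw [e1, map_add, map_add, map_add, map_add, Ps, Ps, Ps, Ps, Ps, Ps, e2, sq, sq] at this
    have := add_left_cancel this
    rw [MonoidAlgebra.single_add_single_inj one_ne_zero one_ne_zero] at this
    rcases this with h | h | h
    · exact Or.inl h
    · exact Or.inr (Or.inl h.2)
    · exact Or.inr (Or.inr h.2)
  -- commuting pairs
  have comm : ∀ g h, g * h = h * g → π g * π h = π h * π g := by
    intro g h hgh
    rcases key g h with k | k | k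
    · rw [← k.1, ← k.2, hgh]
    · rw [← k.1, ← k.2, hgh]
    · exact k.2
  have hss : s ≠ s ^ 2 := by
    intro h
    apply hs1
    have : s * (s - 1) = 0 := by rw [mul_sub, mul_one, ← pow_two, ← h, sub_self]
    rcases mul_eq_zero.mp this with h | h
    · exact absurd h hs0
    · exact sub_eq_zero.mp h
  have hss' : s + s ^ 2 ≠ 0 := by
    intro h
    apply hss
    have := eq_neg_of_add_eq_zero_left h
    rw [CharTwo.neg_eq] at this
    exact this
  have sqmul : ∀ g h, g * h = h * g → π (g * g * h) = π g * π g * π h := by
    intro g h hgh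
    have := h3 (single g 1 + single h s)
    rw [cubexp s g h hgh, map_add, map_add, map_add, map_add, Ps, Ps, Ps, Ps, Ps, Ps,
      cubexp s (π g) (π h) (comm g h hgh), cube, cube] at this
    have := add_left_cancel this
    rw [MonoidAlgebra.single_add_single_inj hs0 (pow_ne_zero 2 hs0)] at this
    rcases this with h | h | h
    · exact h.1
    · exact absurd h.1 hss
    · exact absurd h.1 hss'
  have mulcomm : ∀ g h, g * h = h * g → π (g * h) = π g * π h := by
    intro g h hgh
    set r := g ^ ((Nat.card G + 1) / 2) with hr
    have hr2 : r * r = g := by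
      have h1 := sq_pow_eq hodd g
      rw [← pow_mul, two_mul, pow_add] at h1
      exact h1
    have hrh : r * h = h * r := by
      have : Commute g h := hgh
      exact this.pow_left _
    rw [← hr2, sqmul r h hrh, sq]
  intro g h
  rcases key g h with k | k | k
  · exact Or.inl k
  · exact Or.inr k
  · have hgh : g * h = h * g := π.injective k.1
    exact Or.inl ⟨mulcomm g h hgh, mulcomm h g hgh.symm⟩

end Pool.Agent.Helper44.GM
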