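import Mathlib

set_option autoImplicit false

namespace Pool.Agent.Helper44.GM

open Matrix

/-- An algebra homomorphism from a product of matrix algebras to the base field forces one of the
blocks to be of size one. -/
theorem exists_block_one {F : Type*} [Field F] {r : ℕ} {d : Fin r → ℕ}
    (f : (Π i, Matrix (Fin (d i)) (Fin (d i)) F) →ₐ[F] F) : ∃ i, d i = 1 := by
  classical
  by_contra hcon
  push Not at hcon
  have h1 : f 1 = 1 := map_one f
  have h2 : (1 : Π i, Matrix (Fin (d i)) (Fin (d i)) F) =
      ∑ i, ∑ a : Fin (d i), Pi.single i (Matrix.single a a (1 : F)) := by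
    funext i
    rw [Finset.sum_apply]
    rw [Finset.sum_eq_single i]
    · rw [Finset.sum_apply]
      simp only [Pi.single_eq_same, Pi.one_apply]
      rw [Matrix.sum_single_one]
    · intro j _ hj
      rw [Finset.sum_apply]
      apply Finset.sum_eq_zero
      intro a _
      rw [Pi.single_eq_of_ne hj.symm]
    · intro h
      exact absurd (Finset.mem_univ i) h
  have h3 : ∀ i, ∀ a : Fin (d i), f (Pi.single i (Matrix.single a a (1 : F))) = 0 := by
    intro i a
    obtain ⟨b, hb⟩ : ∃ b : Fin (d i), b ≠ a := by
      have : 1 < d i := by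
        have := hcon i
        have := a.pos
        omega
      have : Nontrivial (Fin (d i)) := Fin.nontrivial_iff_two_le.mpr this
      exact exists_ne a
    have e1 : (Pi.single i (Matrix.single a b (1 : F)) : Π i, Matrix (Fin (d i)) (Fin (d i)) F) *
        Pi.single i (Matrix.single a b (1 : F)) = 0 := by
      rw [← Pi.single_mul, Matrix.single_mul_single_of_ne _ _ _ _ hb, Pi.single_zero]
    have e2 : (Pi.single i (Matrix.single a b (1 : F)) : Π i, Matrix (Fin (d i)) (Fin (d i)) F) *
        Pi.single i (Matrix.single b a (1 : F)) = Pi.single i (Matrix.single a a (1 : F)) := by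
      rw [← Pi.single_mul, Matrix.single_mul_single_same, one_mul]
    have e3 : f (Pi.single i (Matrix.single a b (1 : F))) = 0 := by
      have := congrArg f e1
      rw [map_mul, map_zero] at this
      exact mul_self_eq_zero.mp this
    rw [← e2, map_mul, e3, zero_mul]
  rw [h2, map_sum] at h1
  have h4 : ∑ i, f (∑ a : Fin (d i), Pi.single i (Matrix.single a a (1 : F))) = 0 := by
    apply Finset.sum_eq_zero
    intro i _
    rw [map_sum]
    exact Finset.sum_eq_zero fun a _ => h3 i a
  rw [h4] at h1
  exact zero_ne_one h1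

theorem exists_rep (F : Type*) [Field F] [IsAlgClosed F] [CharP F 2] (G : Type*) [Group G]
    [Fintype G] (hodd : Odd (Fintype.card G)) :
    ∃ (r : ℕ) (d : Fin r → ℕ)
      (Φ : MonoidAlgebra F G →ₐ[F] Matrix (Σ i, Fin (d i)) (Σ i, Fin (d i)) F),
      (∀ a, (∀ b, (Φ (a * b)).trace = 0) → a = 0) ∧
      (∃ x0, ∃ w : (Σ i, Fin (d i)) → F, Function.Injective w ∧ Φ x0 = Matrix.diagonal w) ∧
      Fintype.card G = ∑ i, d i ^ 2 ∧ ∃ i, d i = 1 := by
  classical
  have : NeZero (Nat.card G : F) := by
    refine ⟨?_⟩
    rw [Nat.card_eq_fintype_card]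
    intro h
    rw [CharP.cast_eq_zero_iff F 2] at h
    exact (Nat.not_even_iff_odd.mpr hodd) (even_iff_two_dvd.mpr h)
  have : IsSemisimpleRing (MonoidAlgebra F G) := by
    unfold IsSemisimpleRing
    infer_instance
  have : FiniteDimensional F (MonoidAlgebra F G) := Module.Finite.of_basis (MonoidAlgebra.basis G F)
  obtain ⟨r, d, hd, ⟨e⟩⟩ :=
    IsSemisimpleRing.exists_algEquiv_pi_matrix_of_isAlgClosed F (MonoidAlgebra F G)
  have halg : ∀ c : F, Matrix.blockDiagonal' (algebraMap F (Π i, Matrix (Fin (d i)) (Fin (d i)) F) c)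
      = algebraMap F (Matrix (Σ i, Fin (d i)) (Σ i, Fin (d i)) F) c := by
    intro c
    have : (algebraMap F (Π i, Matrix (Fin (d i)) (Fin (d i)) F) c) =
        fun i => Matrix.diagonal (fun _ => c) := by
      funext i
      rfl
    rw [this, Matrix.blockDiagonal'_diagonal]
    rfl
  let bd : (Π i, Matrix (Fin (d i)) (Fin (d i)) F) →ₐ[F]
      Matrix (Σ i, Fin (d i)) (Σ i, Fin (d i)) F :=
    { Matrix.blockDiagonal'RingHom (fun i => Fin (d i)) F with
      commutes' := halg }
  have hbd : ∀ M, bd M = Matrix.blockDiagonal' M := fun M => rfl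
  refine ⟨r, d, bd.comp e.toAlgHom, ?_, ?_, ?_, ?_⟩
  · intro a ha
    have h1 : e a = 0 := by
      funext i
      have h2 : ∀ c : Matrix (Fin (d i)) (Fin (d i)) F, (e a i * c).trace = 0 := by
        intro c
        have h3 := ha (e.symm (Pi.single i c))
        have h4 : (bd.comp e.toAlgHom) (a * e.symm (Pi.single i c)) =
            Matrix.blockDiagonal' (e a * Pi.single i c) := by
          show bd (e (a * e.symm (Pi.single i c))) = _
          rw [map_mul, AlgEquiv.apply_symm_apply]
          rfl
        rw [h4, Matrix.trace_blockDiagonal', Finset.sum_eq_single i] at h3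
        · simpa using h3
        · intro j _ hj
          rw [Pi.mul_apply, Pi.single_eq_of_ne hj, mul_zero, Matrix.trace_zero]
        · intro h
          exact absurd (Finset.mem_univ i) h
      rw [Pi.zero_apply]
      rw [Matrix.ext_iff_trace_mul_right]
      intro c
      rw [h2 c, zero_mul, Matrix.trace_zero]
    exact (map_eq_zero_iff e e.injective).mp h1
  · have : Infinite F := IsAlgClosed.instInfinite
    obtain ⟨w, hw⟩ : ∃ w : (Σ i, Fin (d i)) → F, Function.Injective w := by
      refine ⟨fun x => Infinite.natEmbedding F (Fintype.equivFin _ x).val, ?_⟩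
      intro x y hxy
      have h1 := (Infinite.natEmbedding F).injective hxy
      exact (Fintype.equivFin _).injective (Fin.val_injective h1)
    refine ⟨e.symm (fun i => Matrix.diagonal (fun a => w ⟨i, a⟩)), w, hw, ?_⟩
    show bd (e (e.symm _)) = _
    rw [AlgEquiv.apply_symm_apply, hbd, Matrix.blockDiagonal'_diagonal]
  · have h1 : Module.finrank F (MonoidAlgebra F G) = Fintype.card G :=
      Module.finrank_eq_card_basis (MonoidAlgebra.basis G F)
    rw [← h1, e.toLinearEquiv.finrank_eq, Module.finrank_pi_fintype]
    apply Finset.sum_congr rfl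
    intro i _
    rw [Module.finrank_matrix]
    simp [pow_two]
  · exact exists_block_one (((MonoidAlgebra.lift F F G (1 : G →* F))).comp e.symm.toAlgHom)

end Pool.Agent.Helper44.GM
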