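import Pool.Agent.Helper44.GM.Core
import Pool.Agent.Helper44.GM.GroupPart
import Pool.Agent.Helper44.GM.Rep
import Pool.Agent.Helper44.GM.Generic2

set_option autoImplicit false

namespace Pool.Agent.Helper44.GM

open Matrix Polynomial

theorem rep_apply {F : Type*} [Field F] {G H : Type*} [Group H] [Fintype G]
    {ι : Type*} [Fintype ι] [DecidableEq ι] (Φ : MonoidAlgebra F H →ₐ[F] Matrix ι ι F)
    (π : G ≃ H) (x : MonoidAlgebra F H) :
    Φ x = ∑ g : G, x.coeff (π g) • Φ (MonoidAlgebra.single (π g) 1) := by
  have : Fintype H := Fintype.ofEquiv G π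
  have hx : x = ∑ g : G, x.coeff (π g) • (MonoidAlgebra.single (π g) 1 : MonoidAlgebra F H) := by
    conv_lhs => rw [← MonoidAlgebra.sum_coeff_single x]
    rw [Finsupp.sum_fintype _ _ (fun i => MonoidAlgebra.single_zero i)]
    rw [← π.sum_comp]
    apply Finset.sum_congr rfl
    intro h _
    rw [MonoidAlgebra.smul_single, smul_eq_mul, mul_one]
  conv_lhs => rw [hx]
  rw [map_sum]
  apply Finset.sum_congr rfl
  intro g _
  rw [map_smul]

theorem dmat_genMat {F : Type*} [Field F] {G H : Type*} [Group H] [Fintype G]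
    {ι : Type*} [Fintype ι] [DecidableEq ι] (Φ : MonoidAlgebra F H →ₐ[F] Matrix ι ι F)
    (π : G ≃ H) (x y : MonoidAlgebra F H) :
    (genMat Φ π).map (MvPolynomial.eval₂Hom (TrivSqZeroExt.inlHom F F)
      (fun g => (TrivSqZeroExt.inl (x.coeff (π g)) : DualNumber F) +
        (DualNumber.eps : DualNumber F) * TrivSqZeroExt.inl (y.coeff (π g)))) =
    dmat (Φ x) (Φ y) := by
  rw [genMat_map, dmat, rep_apply Φ π x, rep_apply Φ π y]
  have hcoe : (TrivSqZeroExt.inl : F → DualNumber F) = TrivSqZeroExt.inlHom F F := rfl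
  rw [hcoe, matrix_map_sum, matrix_map_sum, Finset.smul_sum, ← Finset.sum_add_distrib]
  apply Finset.sum_congr rfl
  intro g _
  apply Matrix.ext
  intro i k
  simp only [MvPolynomial.coe_eval₂Hom, MvPolynomial.eval₂_X, Matrix.smul_apply, Matrix.map_apply,
    Matrix.add_apply, smul_eq_mul, map_mul]
  have e1 : ((MvPolynomial.eval₂Hom (TrivSqZeroExt.inlHom F F)
      (fun g => (TrivSqZeroExt.inlHom F F (x.coeff (π g)) : DualNumber F) +
        (DualNumber.eps : DualNumber F) * TrivSqZeroExt.inlHom F F (y.coeff (π g)))).comp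
        MvPolynomial.C) (Φ (MonoidAlgebra.single (π g) 1) i k) =
      TrivSqZeroExt.inlHom F F (Φ (MonoidAlgebra.single (π g) 1) i k) := by
    simp
  rw [e1]
  ring

theorem main (K : Type) [Field K] [CharP K 2] (G H : Type) [Group G] [Group H] [Fintype G]
    [Fintype H] (hodd : Odd (Fintype.card G)) (hcard : Fintype.card G = Fintype.card H)
    (hyp : ∃ π : G ≃ H,
        (minpoly (FractionRing (MvPolynomial G K))
            (∑ g : G, (algebraMap (MvPolynomial G K) (FractionRing (MvPolynomial G K)) (MvPolynomial.X g)) •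
              MonoidAlgebra.single g (1 : FractionRing (MvPolynomial G K)))).natDegree =
          (minpoly (FractionRing (MvPolynomial G K))
            (∑ g : G, (algebraMap (MvPolynomial G K) (FractionRing (MvPolynomial G K)) (MvPolynomial.X g)) •
              MonoidAlgebra.single (π g) (1 : FractionRing (MvPolynomial G K)))).natDegree ∧
        ∀ j : ℕ, 1 ≤ j →
          j < (minpoly (FractionRing (MvPolynomial G K))
            (∑ g : G, (algebraMap (MvPolynomial G K) (FractionRing (MvPolynomial G K)) (MvPolynomial.X g)) •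
              MonoidAlgebra.single g (1 : FractionRing (MvPolynomial G K)))).natDegree →
          (minpoly (FractionRing (MvPolynomial G K))
            (∑ g : G, (algebraMap (MvPolynomial G K) (FractionRing (MvPolynomial G K)) (MvPolynomial.X g)) •
              MonoidAlgebra.single g (1 : FractionRing (MvPolynomial G K)))).coeff j =
          (minpoly (FractionRing (MvPolynomial G K))
            (∑ g : G, (algebraMap (MvPolynomial G K) (FractionRing (MvPolynomial G K)) (MvPolynomial.X g)) •
              MonoidAlgebra.single (π g) (1 : FractionRing (MvPolynomial G K)))).coeff j) :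
    Nonempty (G ≃* H) := by
  classical
  obtain ⟨π, hdeg, hcoef⟩ := hyp
  set F := AlgebraicClosure K with hF
  have hchar : CharP F 2 := charP_of_injective_algebraMap (algebraMap K F).injective 2
  obtain ⟨r, d, Φ, hΦ, hdiag, hdim, i0, hi0⟩ := exists_rep F G hodd
  obtain ⟨r', d', Ψ, hΨ, hdiag', hdim', i0', hi0'⟩ := exists_rep F H (hcard ▸ hodd)
  have hpos : 0 < Fintype.card (Σ i, Fin (d i)) := Fintype.card_pos_iff.mpr ⟨⟨i0, ⟨0, by omega⟩⟩⟩
  have hpos' : 0 < Fintype.card (Σ i, Fin (d' i)) := Fintype.card_pos_iff.mpr ⟨⟨i0', ⟨0, by omega⟩⟩⟩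
  have hA := minpoly_generic (K := K) Φ (Equiv.refl G) hΦ hdiag hpos
  have hB := minpoly_generic (K := K) Ψ π hΨ hdiag' hpos'
  simp only [Equiv.refl_apply] at hA
  set L := FractionRing (MvPolynomial G K) with hL
  set L' := FractionRing (MvPolynomial G F) with hL'
  set pA := minpoly L (∑ g : G, (algebraMap (MvPolynomial G K) L (MvPolynomial.X g)) •
              MonoidAlgebra.single g (1 : L)) with hpA
  set pB := minpoly L (∑ g : G, (algebraMap (MvPolynomial G K) L (MvPolynomial.X g)) •
              MonoidAlgebra.single (π g) (1 : L)) with hpB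
  have hinj : Function.Injective (algebraMap (MvPolynomial G F) L') :=
    IsFractionRing.injective _ _
  have degA : pA.natDegree = Fintype.card (Σ i, Fin (d i)) := by
    have := congrArg Polynomial.natDegree hA
    rwa [Polynomial.natDegree_map, (Matrix.charpoly_monic _).natDegree_map,
      Matrix.charpoly_natDegree_eq_dim] at this
  have degB : pB.natDegree = Fintype.card (Σ i, Fin (d' i)) := by
    have := congrArg Polynomial.natDegree hB
    rwa [Polynomial.natDegree_map, (Matrix.charpoly_monic _).natDegree_map,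
      Matrix.charpoly_natDegree_eq_dim] at this
  have hcc : Fintype.card (Σ i, Fin (d i)) = Fintype.card (Σ i, Fin (d' i)) := by
    rw [← degA, ← degB, hdeg]
  have hco : ∀ j, 1 ≤ j → (genMat Φ (Equiv.refl G)).charpoly.coeff j =
      (genMat Ψ π).charpoly.coeff j := by
    intro j hj
    rcases lt_trichotomy j pA.natDegree with h | h | h
    · have h1 := hcoef j hj h
      have h2 := congrArg (fun p => Polynomial.coeff p j) hA
      have h3 := congrArg (fun p => Polynomial.coeff p j) hB
      simp only [Polynomial.coeff_map] at h2 h3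
      apply hinj
      rw [← h2, ← h3, h1]
    · have h2 : (genMat Φ (Equiv.refl G)).charpoly.coeff j = 1 := by
        have := Matrix.charpoly_monic (genMat Φ (Equiv.refl G))
        rw [Polynomial.Monic, Polynomial.leadingCoeff, Matrix.charpoly_natDegree_eq_dim, ← degA,
          ← h] at this
        exact this
      have h3 : (genMat Ψ π).charpoly.coeff j = 1 := by
        have := Matrix.charpoly_monic (genMat Ψ π)
        rw [Polynomial.Monic, Polynomial.leadingCoeff, Matrix.charpoly_natDegree_eq_dim, ← hcc,
          ← degA, ← h] at this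
        exact this
      rw [h2, h3]
    · rw [Polynomial.coeff_eq_zero_of_natDegree_lt, Polynomial.coeff_eq_zero_of_natDegree_lt]
      · rw [Matrix.charpoly_natDegree_eq_dim, ← hcc, ← degA]; exact h
      · rw [Matrix.charpoly_natDegree_eq_dim, ← degA]; exact h
  by_cases h5 : 5 ≤ Fintype.card (Σ i, Fin (d i))
  · -- the main case
    have hH : ∀ x y : MonoidAlgebra F G, ∀ j, 1 ≤ j →
        (dmat (Φ x) (Φ y)).charpoly.coeff j =
        (dmat (Ψ (MonoidAlgebra.mapDomainLinearEquiv F F π x))
          (Ψ (MonoidAlgebra.mapDomainLinearEquiv F F π y))).charpoly.coeff j := by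
      intro x y j hj
      rw [← dmat_genMat Φ (Equiv.refl G) x y, ← dmat_genMat Ψ π, Matrix.charpoly_map,
        Matrix.charpoly_map, Polynomial.coeff_map, Polynomial.coeff_map, hco j hj]
      have h1 : ∀ z : MonoidAlgebra F G, ∀ g : G,
          (MonoidAlgebra.mapDomainLinearEquiv F F π z).coeff (π g) = z.coeff g := by
        intro z g
        rw [MonoidAlgebra.coeff_mapDomainLinearEquiv, Finsupp.equivMapDomain_apply,
          Equiv.symm_apply_apply]
      simp only [h1, Equiv.refl_apply]
    obtain ⟨_, h2, h3⟩ := core Φ Ψ hcc (MonoidAlgebra.mapDomainLinearEquiv F F π) hΨ hH h5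
    have : Infinite F := IsAlgClosed.instInfinite
    obtain ⟨s, hs⟩ := Infinite.exists_notMem_finset ({0, 1} : Finset F)
    simp only [Finset.mem_insert, Finset.mem_singleton, not_or] at hs
    have hoddG : Odd (Nat.card G) := by rw [Nat.card_eq_fintype_card]; exact hodd
    have hoddH : Odd (Nat.card H) := by rw [Nat.card_eq_fintype_card, ← hcard]; exact hodd
    exact iso_of_half hoddH π (half_of_powers s hs.1 hs.2 hoddG π h2 h3)
  · -- small cases
    push Not at h5
    have hsum : Fintype.card (Σ i, Fin (d i)) = ∑ i, d i := by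
      rw [Fintype.card_sigma]; simp
    rw [hsum] at h5
    have hsplit : ∑ i, d i = 1 + ∑ i ∈ Finset.univ.erase i0, d i := by
      rw [← Finset.add_sum_erase _ _ (Finset.mem_univ i0), hi0]
    have hsplit2 : ∑ i, d i ^ 2 = 1 + ∑ i ∈ Finset.univ.erase i0, d i ^ 2 := by
      rw [← Finset.add_sum_erase _ _ (Finset.mem_univ i0), hi0]
      rfl
    have hle : ∑ i ∈ Finset.univ.erase i0, d i ^ 2 ≤ (∑ i ∈ Finset.univ.erase i0, d i) ^ 2 := by
      exact Finset.sum_sq_le_sq_sum_of_nonneg (fun i _ => Nat.zero_le _)
    have hpar : (∑ i, d i ^ 2) % 2 = (∑ i, d i) % 2 := by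
      rw [Finset.sum_nat_mod, Finset.sum_nat_mod (f := d)]
      congr 1
      apply Finset.sum_congr rfl
      intro i _
      rcases Nat.even_or_odd (d i) with h | h
      · obtain ⟨k, hk⟩ := h
        rw [hk]; ring_nf; omega
      · obtain ⟨k, hk⟩ := h
        rw [hk]; ring_nf; omega
    have hm : ∑ i, d i = 1 ∨ ∑ i, d i = 3 := by
      obtain ⟨k, hk⟩ := hodd
      omega
    have hG5 : Fintype.card G ≤ 5 := by
      rw [hdim, hsplit2]
      have : ∑ i ∈ Finset.univ.erase i0, d i ≤ 2 := by omega
      have h2 : (∑ i ∈ Finset.univ.erase i0, d i) ^ 2 ≤ 2 ^ 2 := Nat.pow_le_pow_left this 2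
      omega
    have hG : Fintype.card G = 1 ∨ Fintype.card G = 3 ∨ Fintype.card G = 5 := by
      obtain ⟨k, hk⟩ := hodd
      omega
    rcases hG with hG | hG | hG
    · have h1 : Subsingleton G := Fintype.card_le_one_iff_subsingleton.mp (by omega)
      have h2 : Subsingleton H := Fintype.card_le_one_iff_subsingleton.mp (by omega)
      exact ⟨{ toFun := fun _ => 1, invFun := fun _ => 1,
               left_inv := fun _ => Subsingleton.elim _ _,
               right_inv := fun _ => Subsingleton.elim _ _,
               map_mul' := fun _ _ => Subsingleton.elim _ _ }⟩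
    · have : Fact (Nat.Prime 3) := ⟨by norm_num⟩
      exact ⟨mulEquivOfPrimeCardEq (p := 3) (by rw [Nat.card_eq_fintype_card, hG])
        (by rw [Nat.card_eq_fintype_card, ← hcard, hG])⟩
    · have : Fact (Nat.Prime 5) := ⟨by norm_num⟩
      exact ⟨mulEquivOfPrimeCardEq (p := 5) (by rw [Nat.card_eq_fintype_card, hG])
        (by rw [Nat.card_eq_fintype_card, ← hcard, hG])⟩

end Pool.Agent.Helper44.GM
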