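import Mathlib

set_option autoImplicit false

namespace Pool.Agent.Helper44.GM

open Matrix Polynomial

section abstract_part

variable {F L L' : Type*} [Field F] [Field L] [Field L'] [Algebra F L']
  {H : Type*} [Group H] [Fintype H] [DecidableEq H]
  {ι : Type*} [Fintype ι] [DecidableEq ι]

/-- Extension of scalars of a matrix representation. -/
noncomputable def extRep (L' : Type*) [Field L'] [Algebra F L']
    (Φ : MonoidAlgebra F H →ₐ[F] Matrix ι ι F) :
    MonoidAlgebra L' H →ₐ[L'] Matrix ι ι L' :=
  MonoidAlgebra.lift L' (Matrix ι ι L') H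
    (((algebraMap F L').mapMatrix : Matrix ι ι F →+* Matrix ι ι L').toMonoidHom.comp
      ((Φ : MonoidAlgebra F H →* Matrix ι ι F).comp (MonoidAlgebra.of F H)))

omit [Fintype H] [DecidableEq H] in
theorem extRep_single (Φ : MonoidAlgebra F H →ₐ[F] Matrix ι ι F) (h : H) (c : L') :
    extRep L' Φ (MonoidAlgebra.single h c) =
      c • (Φ (MonoidAlgebra.single h 1)).map (algebraMap F L') := by
  rw [extRep, MonoidAlgebra.lift_single]
  rfl

theorem extRep_injective (Φ : MonoidAlgebra F H →ₐ[F] Matrix ι ι F)
    (hΦ : ∀ a, (∀ b, (Φ (a * b)).trace = 0) → a = 0) :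
    Function.Injective (extRep L' Φ) := by
  -- the Gram matrix of the trace form over `F`
  set T : Matrix H H F := fun h k => (Φ (MonoidAlgebra.single (h * k) 1)).trace with hT
  have hdet : T.det ≠ 0 := by
    intro h0
    obtain ⟨v, hv, hv0⟩ := Matrix.exists_vecMul_eq_zero_iff.mpr h0
    apply hv
    set a : MonoidAlgebra F H := ∑ h, MonoidAlgebra.single h (v h) with ha
    have ha0 : a = 0 := by
      apply hΦ
      intro b
      have : ∀ k : H, (Φ (a * MonoidAlgebra.single k 1)).trace = 0 := by
        intro k
        have h1 := congrFun hv0 k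
        rw [Matrix.vecMul, dotProduct, Pi.zero_apply] at h1
        rw [ha, Finset.sum_mul, map_sum, Matrix.trace_sum, ← h1]
        apply Finset.sum_congr rfl
        intro h _
        rw [MonoidAlgebra.single_mul_single, mul_one]
        have : (MonoidAlgebra.single (h * k) (v h) : MonoidAlgebra F H) =
            v h • MonoidAlgebra.single (h * k) 1 := by
          rw [MonoidAlgebra.smul_single, smul_eq_mul, mul_one]
        rw [this, map_smul, Matrix.trace_smul, smul_eq_mul]
      induction b using MonoidAlgebra.induction_linear with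
      | zero => rw [mul_zero, map_zero, Matrix.trace_zero]
      | add x y hx hy => rw [mul_add, map_add, Matrix.trace_add, hx, hy, add_zero]
      | single k c =>
        have e : (MonoidAlgebra.single k c : MonoidAlgebra F H) =
            c • MonoidAlgebra.single k 1 := by
          rw [MonoidAlgebra.smul_single, smul_eq_mul, mul_one]
        rw [e, mul_smul_comm, map_smul, Matrix.trace_smul, this k, smul_zero]
    funext h
    have h2 := congrArg (fun x : MonoidAlgebra F H => x.coeff h) ha0
    simp only [ha, MonoidAlgebra.coeff_sum, MonoidAlgebra.coeff_single, Finsupp.coe_finsetSum,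
      Finset.sum_apply, MonoidAlgebra.coeff_zero, Finsupp.coe_zero, Pi.zero_apply] at h2
    rw [Finset.sum_eq_single h] at h2
    · simpa using h2
    · intro k _ hk
      exact Finsupp.single_eq_of_ne (Ne.symm hk)
    · intro hh
      exact absurd (Finset.mem_univ h) hh
  have hdet' : (T.map (algebraMap F L')).det ≠ 0 := by
    have : (T.map (algebraMap F L')).det = algebraMap F L' T.det := by
      rw [RingHom.map_det]; rfl
    rw [this]
    intro h
    exact hdet ((map_eq_zero _).mp h)
  rw [injective_iff_map_eq_zero]
  intro a ha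
  have hsum : a = ∑ h, MonoidAlgebra.single h (a.coeff h) := by
    conv_lhs => rw [← MonoidAlgebra.sum_coeff_single a]
    rw [Finsupp.sum_fintype]
    intro i
    exact MonoidAlgebra.single_zero i
  have hv : (fun h => a.coeff h) ᵥ* (T.map (algebraMap F L')) = 0 := by
    funext k
    rw [Matrix.vecMul, dotProduct, Pi.zero_apply]
    have h1 : (extRep L' Φ (a * MonoidAlgebra.single k 1)).trace = 0 := by
      rw [map_mul, ha, zero_mul, Matrix.trace_zero]
    rw [hsum, Finset.sum_mul, map_sum, Matrix.trace_sum] at h1
    rw [← h1]
    apply Finset.sum_congr rfl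
    intro h _
    rw [MonoidAlgebra.single_mul_single, mul_one, extRep_single, Matrix.trace_smul, smul_eq_mul,
      Matrix.map_apply]
    congr 1
    rw [hT]
    simp only [Matrix.trace, Matrix.diag, Matrix.map_apply, map_sum]
  have := Matrix.eq_zero_of_vecMul_eq_zero hdet' hv
  rw [hsum]
  apply Finset.sum_eq_zero
  intro h _
  rw [congrFun this h]
  exact MonoidAlgebra.single_zero h

/-- If the Gram determinant does not vanish, no nonzero polynomial of degree less than the size
of the matrix annihilates it. -/
theorem eq_zero_of_gram {N : ℕ} (X : Matrix ι ι L')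
    (hG : (Matrix.of fun i k : Fin N => (X ^ (i.val + k.val)).trace).det ≠ 0)
    (q : L'[X]) (hq : q.natDegree < N) (h : aeval X q = 0) : q = 0 := by
  have h1 : (Matrix.of fun i k : Fin N => (X ^ (i.val + k.val)).trace) *ᵥ
      (fun k : Fin N => q.coeff k) = 0 := by
    funext i
    rw [Pi.zero_apply]
    have h2 : (X ^ i.val * aeval X q).trace = 0 := by rw [h, mul_zero, Matrix.trace_zero]
    rw [Polynomial.aeval_eq_sum_range' hq, Finset.mul_sum, Matrix.trace_sum] at h2
    rw [← h2, Matrix.mulVec, dotProduct, ← Fin.sum_univ_eq_sum_range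
      (fun k => (X ^ i.val * q.coeff k • X ^ k).trace) N]
    apply Finset.sum_congr rfl
    intro k _
    rw [Matrix.of_apply, mul_smul_comm, Matrix.trace_smul, smul_eq_mul, ← pow_add, mul_comm]
  have h2 := Matrix.eq_zero_of_mulVec_eq_zero hG h1
  ext k
  rw [Polynomial.coeff_zero]
  by_cases hk : k < N
  · exact congrFun h2 ⟨k, hk⟩
  · exact Polynomial.coeff_eq_zero_of_natDegree_lt (by omega)

/-- The minimal polynomial of a generic element is a characteristic polynomial. -/
theorem minpoly_map_eq (j : L →+* L') (Φ : MonoidAlgebra F H →ₐ[F] Matrix ι ι F)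
    (hΦ : ∀ a, (∀ b, (Φ (a * b)).trace = 0) → a = 0) (x : MonoidAlgebra L H)
    (hG : (Matrix.of fun i k : Fin (Fintype.card ι) =>
      ((extRep L' Φ (MonoidAlgebra.mapRingHom H j x)) ^ (i.val + k.val)).trace).det ≠ 0)
    (hpos : 0 < Fintype.card ι) :
    (minpoly L x).map j = (extRep L' Φ (MonoidAlgebra.mapRingHom H j x)).charpoly := by
  set n := Fintype.card ι with hn
  set x' := MonoidAlgebra.mapRingHom H j x with hx'
  set X' := extRep L' Φ x' with hX'
  have hinj := extRep_injective (L' := L') Φ hΦ
  have : Module.Finite L (MonoidAlgebra L H) := Module.Finite.of_basis (MonoidAlgebra.basis H L)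
  have hint : IsIntegral L x := Algebra.IsIntegral.isIntegral x
  set p := minpoly L x with hp
  have hpm : p.Monic := minpoly.monic hint
  have hcomp : (algebraMap L' (MonoidAlgebra L' H)).comp j =
      (MonoidAlgebra.mapRingHom H j).comp (algebraMap L (MonoidAlgebra L H)) := by
    ext c
    simp [MonoidAlgebra.coe_algebraMap]
  have hp' : aeval x' (p.map j) = 0 := by
    rw [hx', ← Polynomial.map_aeval_eq_aeval_map hcomp, hp, minpoly.aeval, map_zero]
  have hp'X : aeval X' (p.map j) = 0 := by
    rw [hX', Polynomial.aeval_algHom_apply, hp', map_zero]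
  have hc : aeval X' X'.charpoly = 0 := Matrix.aeval_self_charpoly X'
  have hc' : aeval x' X'.charpoly = 0 := by
    apply hinj
    rw [← Polynomial.aeval_algHom_apply, ← hX', hc, map_zero]
  have hcm : X'.charpoly.Monic := Matrix.charpoly_monic X'
  have hcd : X'.charpoly.natDegree = n := Matrix.charpoly_natDegree_eq_dim X'
  have hpd' : (p.map j).natDegree = p.natDegree := hpm.natDegree_map j
  -- lower bound
  have hlow : n ≤ p.natDegree := by
    by_contra hlt
    push Not at hlt
    have := eq_zero_of_gram X' hG (p.map j) (by rw [hpd']; exact hlt) hp'X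
    exact (hpm.map j).ne_zero this
  -- upper bound
  have hup : p.natDegree ≤ n := by
    by_contra hlt
    push Not at hlt
    have hnot : x ^ n ∉ Submodule.span L (Set.range fun k : Fin n => x ^ (k : ℕ)) := by
      intro hmem
      rw [Submodule.mem_span_range_iff_exists_fun] at hmem
      obtain ⟨c, hc⟩ := hmem
      set r : L[X] := ∑ k : Fin n, C (c k) * Polynomial.X ^ (k : ℕ) with hr
      have hrd : r.degree < (n : WithBot ℕ) := by
        rw [hr]
        refine lt_of_le_of_lt (Polynomial.degree_sum_le _ _) ?_
        rw [Finset.sup_lt_iff (by exact_mod_cast WithBot.bot_lt_coe n)]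
        intro k _
        refine lt_of_le_of_lt (Polynomial.degree_C_mul_X_pow_le _ _) ?_
        exact_mod_cast k.isLt
      have hqm : (Polynomial.X ^ n - r).Monic := Polynomial.monic_X_pow_sub hrd
      have hq0 : aeval x (Polynomial.X ^ n - r) = 0 := by
        rw [map_sub, map_pow, aeval_X, hr, map_sum, ← hc, sub_eq_zero]
        apply Finset.sum_congr rfl
        intro k _
        rw [map_mul, aeval_C, map_pow, aeval_X, Algebra.smul_def]
      have h1 := minpoly.min L x hqm hq0
      have h2 : (Polynomial.X ^ n - r).degree = (n : WithBot ℕ) := by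
        rw [Polynomial.degree_sub_eq_left_of_degree_lt]
        · exact Polynomial.degree_X_pow n
        · rw [Polynomial.degree_X_pow]; exact hrd
      rw [h2, ← hp, Polynomial.degree_eq_natDegree hpm.ne_zero] at h1
      have h3 : p.natDegree ≤ n := by exact_mod_cast h1
      omega
    obtain ⟨f, hf, hfs⟩ := Submodule.exists_dual_map_eq_bot_of_notMem hnot inferInstance
    have hf0 : ∀ k, k < n → f (x ^ k) = 0 := by
      intro k hk
      have : f (x ^ k) ∈ Submodule.map f (Submodule.span L (Set.range fun k : Fin n => x ^ (k : ℕ))) :=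
        Submodule.mem_map_of_mem (Submodule.subset_span ⟨⟨k, hk⟩, rfl⟩)
      rw [hfs] at this
      exact (Submodule.mem_bot L).mp this
    -- the extended functional
    let f' : MonoidAlgebra L' H →ₗ[L'] L' :=
      { toFun := fun a => ∑ h, a.coeff h * j (f (MonoidAlgebra.single h 1))
        map_add' := by
          intro a b
          rw [← Finset.sum_add_distrib]
          apply Finset.sum_congr rfl
          intro h _
          rw [MonoidAlgebra.coeff_add, Finsupp.add_apply, add_mul]
        map_smul' := by
          intro c a
          rw [RingHom.id_apply, smul_eq_mul, Finset.mul_sum]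
          apply Finset.sum_congr rfl
          intro h _
          rw [MonoidAlgebra.coeff_smul_apply, smul_eq_mul, mul_assoc] }
    have hf' : ∀ y : MonoidAlgebra L H, f' (MonoidAlgebra.mapRingHom H j y) = j (f y) := by
      intro y
      show ∑ h, (MonoidAlgebra.mapRingHom H j y).coeff h * j (f (MonoidAlgebra.single h 1)) = _
      have hy : y = ∑ h, (y.coeff h) • (MonoidAlgebra.single h 1 : MonoidAlgebra L H) := by
        conv_lhs => rw [← MonoidAlgebra.sum_coeff_single y]
        rw [Finsupp.sum_fintype]
        · apply Finset.sum_congr rfl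
          intro h _
          rw [MonoidAlgebra.smul_single, smul_eq_mul, mul_one]
        · intro i
          exact MonoidAlgebra.single_zero i
      conv_rhs => rw [hy]
      rw [map_sum, map_sum]
      apply Finset.sum_congr rfl
      intro h _
      rw [map_smul, smul_eq_mul, map_mul, MonoidAlgebra.coeff_mapRingHom]
    have h1 : f' (aeval x' X'.charpoly) = 0 := by rw [hc', map_zero]
    rw [Polynomial.aeval_eq_sum_range, hcd, map_sum, Finset.sum_range_succ] at h1
    have h2 : ∀ k, f' (X'.charpoly.coeff k • x' ^ k) = X'.charpoly.coeff k * j (f (x ^ k)) := by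
      intro k
      rw [map_smul, smul_eq_mul, hx', ← map_pow, hf']
    rw [h2, Finset.sum_eq_zero, zero_add] at h1
    · have h3 : X'.charpoly.coeff n = 1 := by
        rw [← hcd]; exact hcm
      rw [h3, one_mul] at h1
      exact hf ((map_eq_zero j).mp h1)
    · intro k hk
      rw [h2, hf0 k (Finset.mem_range.mp hk), map_zero, mul_zero]
  have hpd : p.natDegree = n := le_antisymm hup hlow
  -- conclusion
  have hdeg : (p.map j - X'.charpoly).natDegree < n := by
    have h1 : (p.map j - X'.charpoly).degree < (p.map j).degree := by
      apply Polynomial.degree_sub_lt_left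
      · rw [Polynomial.degree_eq_natDegree (hpm.map j).ne_zero,
          Polynomial.degree_eq_natDegree hcm.ne_zero, hpd', hpd, hcd]
      · exact (hpm.map j).ne_zero
      · rw [(hpm.map j).leadingCoeff, hcm.leadingCoeff]
    by_cases h0 : p.map j - X'.charpoly = 0
    · rw [h0, Polynomial.natDegree_zero]; exact hpos
    · rw [Polynomial.degree_eq_natDegree h0, Polynomial.degree_eq_natDegree (hpm.map j).ne_zero,
        hpd', hpd] at h1
      exact_mod_cast h1
  have h2 := eq_zero_of_gram X' hG _ hdeg (by rw [map_sub, hp'X, hc, sub_zero])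
  exact sub_eq_zero.mp h2

end abstract_part

end Pool.Agent.Helper44.GM
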