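import Mathlib

set_option autoImplicit false

namespace Pool.Agent.Helper44.GM

/-- In a finite group of odd order every element is a power of its square. -/
theorem sq_pow_eq {H : Type*} [Group H] [Finite H] (hodd : Odd (Nat.card H)) (b : H) :
    (b ^ 2) ^ ((Nat.card H + 1) / 2) = b := by
  obtain ⟨k, hk⟩ := hodd
  have h1 : (Nat.card H + 1) / 2 = k + 1 := by omega
  rw [h1, ← pow_mul]
  have h2 : 2 * (k + 1) = Nat.card H + 1 := by omega
  rw [h2, pow_succ, pow_card_eq_one', one_mul]

theorem comm_of_comm_sq {H : Type*} [Group H] [Finite H] (hodd : Odd (Nat.card H)) {x b : H}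
    (h : x * b ^ 2 = b ^ 2 * x) : x * b = b * x := by
  have h1 : Commute x (b ^ 2) := h
  have h2 := h1.pow_right ((Nat.card H + 1) / 2)
  rw [sq_pow_eq hodd] at h2
  exact h2

/-- Local statement: the sign of an element is well defined. -/
theorem local_sign {G H : Type*} [Group G] [Group H] [Finite H] (hodd : Odd (Nat.card H))
    (π : G ≃ H)
    (hπ : ∀ g h, (π (g * h) = π g * π h ∧ π (h * g) = π h * π g) ∨
      (π (g * h) = π h * π g ∧ π (h * g) = π g * π h))
    (a b c : G) (hb : π (a * b) = π a * π b) (hb' : π a * π b ≠ π b * π a)
    (hc : π (a * c) = π c * π a) (hc' : π a * π c ≠ π c * π a) : False := by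
  have hba : π (b * a) = π b * π a := by
    rcases hπ a b with h | h
    · exact h.2
    · exact absurd (hb.symm.trans h.1) hb'
  have hca : π (c * a) = π a * π c := by
    rcases hπ a c with h | h
    · exact absurd (h.1.symm.trans hc) hc'
    · exact h.2
  have hd : ∀ g h, π (g * h) = π g * π h ∨ π (g * h) = π h * π g := by
    intro g h
    rcases hπ g h with h1 | h1
    · exact Or.inl h1.1
    · exact Or.inr h1.1
  -- abbreviations
  generalize hA : π a = A at *
  generalize hB : π b = B at *
  generalize hC : π c = C at *
  -- π (b a c)
  have q1 : π (b * a * c) = B * A * C ∨ π (b * a * c) = C * (B * A) := by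
    have := hd (b * a) c
    rwa [hba, hC] at this
  have q2 : π (b * a * c) = B * (C * A) ∨ π (b * a * c) = C * A * B := by
    have := hd b (a * c)
    rwa [hc, hB, ← mul_assoc b a c] at this
  by_cases hbc : B * C = C * B
  · -- commuting case
    have pbc : π (b * c) = B * C := by
      rcases hd b c with h | h
      · rw [h, hB, hC]
      · rw [h, hB, hC, hbc]
    have pcb : π (c * b) = B * C := by
      rcases hd c b with h | h
      · rw [h, hB, hC, hbc]
      · rw [h, hB, hC]
    have gbc : b * c = c * b := π.injective (pbc.trans pcb.symm)
    have z1 : π (a * b * c) = A * (B * C) ∨ π (a * b * c) = B * C * A := by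
      have := hd a (b * c)
      rwa [pbc, hA, ← mul_assoc a b c] at this
    have z2 : π (a * b * c) = A * B * C ∨ π (a * b * c) = C * (A * B) := by
      have := hd (a * b) c
      rwa [hb, hC] at this
    have z3 : π (a * b * c) = C * A * B ∨ π (a * b * c) = B * (C * A) := by
      have := hd (a * c) b
      rwa [hc, hB, mul_assoc a c b, ← gbc, ← mul_assoc a b c] at this
    have zz : π (a * b * c) = A * B * C ∧ A * B * C = B * C * A := by
      rcases z2 with z2 | z2
      · refine ⟨z2, ?_⟩
        rcases z3 with z3 | z3
        · exfalso
          apply hc'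
          have : A * B * C = C * A * B := z2.symm.trans z3
          rw [mul_assoc, hbc, ← mul_assoc] at this
          exact mul_right_cancel this
        · rw [← z2, z3, mul_assoc]
      · rcases z1 with z1 | z1
        · exfalso
          apply hc'
          have : A * (B * C) = C * (A * B) := z1.symm.trans z2
          rw [hbc, ← mul_assoc, ← mul_assoc] at this
          exact mul_right_cancel this
        · exfalso
          apply hb'
          have : B * C * A = C * (A * B) := z1.symm.trans z2
          rw [hbc, mul_assoc] at this
          exact (mul_left_cancel this).symm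
    have w : B * A * C = C * A * B := by
      rcases q1 with q1 | q1
      · rcases q2 with q2 | q2
        · exfalso
          apply hc'
          have : B * A * C = B * (C * A) := q1.symm.trans q2
          rw [mul_assoc] at this
          exact mul_left_cancel this
        · exact q1.symm.trans q2
      · exfalso
        apply hb'
        have : π (b * a * c) = π (a * b * c) := by
          rw [q1, zz.1, zz.2, hbc, mul_assoc]
        have := π.injective this
        have := mul_right_cancel this
        have h3 := congrArg π this
        rw [hba, hb] at h3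
        exact h3.symm
    -- A commutes with B ^ 2
    apply hb'
    apply comm_of_comm_sq hodd
    have e1 : A * (B * C) = (B * C) * A := by rw [← mul_assoc]; exact zz.2
    have e2 : A * (C⁻¹ * B) = (C⁻¹ * B) * A := by
      have hCB : C⁻¹ * B = B * C⁻¹ := by
        rw [inv_mul_eq_iff_eq_mul, ← mul_assoc, ← hbc, mul_assoc, mul_inv_cancel, mul_one]
      have : C⁻¹ * (B * A * C) * C⁻¹ = C⁻¹ * (C * A * B) * C⁻¹ := by rw [w]
      have h1 : C⁻¹ * (B * A * C) * C⁻¹ = (C⁻¹ * B) * A := by group
      have h2 : C⁻¹ * (C * A * B) * C⁻¹ = A * (B * C⁻¹) := by group
      rw [h1, h2, ← hCB] at this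
      exact this.symm
    have e3 : (C⁻¹ * B) * (B * C) = B ^ 2 := by
      have hCB : C⁻¹ * B = B * C⁻¹ := by
        rw [inv_mul_eq_iff_eq_mul, ← mul_assoc, ← hbc, mul_assoc, mul_inv_cancel, mul_one]
      rw [hbc, hCB, pow_two]
      group
    have e4 : Commute A ((C⁻¹ * B) * (B * C)) := Commute.mul_right e2 e1
    rw [e3] at e4
    exact e4
  · -- noncommuting case
    have w : B * A * C = C * A * B := by
      rcases q1 with q1 | q1
      · rcases q2 with q2 | q2
        · exfalso
          apply hc'
          have : B * A * C = B * (C * A) := q1.symm.trans q2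
          rw [mul_assoc] at this
          exact mul_left_cancel this
        · exact q1.symm.trans q2
      · rcases q2 with q2 | q2
        · exfalso
          apply hbc
          have : C * (B * A) = B * (C * A) := q1.symm.trans q2
          rw [← mul_assoc, ← mul_assoc] at this
          exact (mul_right_cancel this).symm
        · exfalso
          apply hb'
          have : C * (B * A) = C * A * B := q1.symm.trans q2
          rw [mul_assoc C A B] at this
          exact (mul_left_cancel this).symm
    rcases hπ b c with ⟨pbc, pcb⟩ | ⟨pbc, pcb⟩
    · rw [hB, hC] at pbc pcb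
      -- π (a c b)
      have r1 : π (a * c * b) = C * A * B ∨ π (a * c * b) = B * (C * A) := by
        have := hd (a * c) b
        rwa [hc, hB] at this
      have r2 : π (a * c * b) = A * (C * B) ∨ π (a * c * b) = C * B * A := by
        have := hd a (c * b)
        rwa [pcb, hA, ← mul_assoc a c b] at this
      have r : B * (C * A) = A * (C * B) := by
        rcases r1 with r1 | r1
        · rcases r2 with r2 | r2
          · exfalso
            apply hc'
            have : C * A * B = A * (C * B) := r1.symm.trans r2
            rw [← mul_assoc] at this
            exact (mul_right_cancel this).symm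
          · exfalso
            apply hb'
            have : C * A * B = C * B * A := r1.symm.trans r2
            rw [mul_assoc, mul_assoc] at this
            exact mul_left_cancel this
        · rcases r2 with r2 | r2
          · exact r1.symm.trans r2
          · exfalso
            apply hbc
            have : B * (C * A) = C * B * A := r1.symm.trans r2
            rw [← mul_assoc] at this
            exact mul_right_cancel this
      -- A C = B⁻¹ (C A) B and A C = B (C A) B⁻¹
      have e1 : A * C = B⁻¹ * (C * A) * B := by
        have : B⁻¹ * (B * A * C) = B⁻¹ * (C * A * B) := by rw [w]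
        have h1 : B⁻¹ * (B * A * C) = A * C := by group
        rw [h1] at this
        rw [this]; group
      have e2 : A * C = B * (C * A) * B⁻¹ := by
        have : (B * (C * A)) * B⁻¹ = (A * (C * B)) * B⁻¹ := by rw [r]
        rw [this]; group
      have e3 : (C * A) * B ^ 2 = B ^ 2 * (C * A) := by
        have h := e1.symm.trans e2
        have : B * (B⁻¹ * (C * A) * B) * B = B * (B * (C * A) * B⁻¹) * B := by rw [h]
        have h1 : B * (B⁻¹ * (C * A) * B) * B = (C * A) * B ^ 2 := by rw [pow_two]; group
        have h2 : B * (B * (C * A) * B⁻¹) * B = B ^ 2 * (C * A) := by rw [pow_two]; group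
        rw [h1, h2] at this
        exact this
      have e4 := comm_of_comm_sq hodd e3
      apply hc'
      rw [e1, mul_assoc, e4]
      group
    · rw [hB, hC] at pbc pcb
      -- π (a b c)
      have r1 : π (a * b * c) = A * B * C ∨ π (a * b * c) = C * (A * B) := by
        have := hd (a * b) c
        rwa [hb, hC] at this
      have r2 : π (a * b * c) = A * (C * B) ∨ π (a * b * c) = C * B * A := by
        have := hd a (b * c)
        rwa [pbc, hA, ← mul_assoc a b c] at this
      have r : A * B * C = C * B * A := by
        rcases r1 with r1 | r1
        · rcases r2 with r2 | r2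
          · exfalso
            apply hbc
            have : A * B * C = A * (C * B) := r1.symm.trans r2
            rw [mul_assoc] at this
            exact mul_left_cancel this
          · exact r1.symm.trans r2
        · rcases r2 with r2 | r2
          · exfalso
            apply hc'
            have : C * (A * B) = A * (C * B) := r1.symm.trans r2
            rw [← mul_assoc, ← mul_assoc] at this
            exact (mul_right_cancel this).symm
          · exfalso
            apply hb'
            have : C * (A * B) = C * B * A := r1.symm.trans r2
            rw [mul_assoc] at this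
            exact mul_left_cancel this
      have e1 : A * B = C⁻¹ * (B * A) * C := by
        have : C⁻¹ * (B * A * C) = C⁻¹ * (C * A * B) := by rw [w]
        have h2 : C⁻¹ * (C * A * B) = A * B := by group
        rw [h2] at this
        rw [← this]; group
      have e2 : A * B = C * (B * A) * C⁻¹ := by
        have : (A * B * C) * C⁻¹ = (C * B * A) * C⁻¹ := by rw [r]
        have h1 : (A * B * C) * C⁻¹ = A * B := by group
        rw [h1] at this
        rw [this]; group
      have e3 : (B * A) * C ^ 2 = C ^ 2 * (B * A) := by
        have h := e1.symm.trans e2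
        have : C * (C⁻¹ * (B * A) * C) * C = C * (C * (B * A) * C⁻¹) * C := by rw [h]
        have h1 : C * (C⁻¹ * (B * A) * C) * C = (B * A) * C ^ 2 := by rw [pow_two]; group
        have h2 : C * (C * (B * A) * C⁻¹) * C = C ^ 2 * (B * A) := by rw [pow_two]; group
        rw [h1, h2] at this
        exact this
      have e4 := comm_of_comm_sq hodd e3
      apply hb'
      rw [e1, mul_assoc, e4]
      group

/-- Scott's theorem on half-isomorphisms, for groups of odd order. -/
theorem iso_of_half {G H : Type*} [Group G] [Group H] [Finite H] (hodd : Odd (Nat.card H))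
    (π : G ≃ H)
    (hπ : ∀ g h, (π (g * h) = π g * π h ∧ π (h * g) = π h * π g) ∨
      (π (g * h) = π h * π g ∧ π (h * g) = π g * π h)) : Nonempty (G ≃* H) := by
  have hd : ∀ g h, π (g * h) = π g * π h ∨ π (g * h) = π h * π g := by
    intro g h
    rcases hπ g h with h1 | h1
    · exact Or.inl h1.1
    · exact Or.inr h1.1
  have loc : ∀ a, (∀ b, π (a * b) = π a * π b) ∨ (∀ b, π (a * b) = π b * π a) := by
    intro a
    by_contra hcon
    push Not at hcon
    obtain ⟨⟨c, hc⟩, ⟨b, hb⟩⟩ := hcon
    have hb1 : π (a * b) = π a * π b := by
      rcases hd a b with h | h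
      · exact h
      · exact absurd h hb
    have hc1 : π (a * c) = π c * π a := by
      rcases hd a c with h | h
      · exact absurd h hc
      · exact h
    exact local_sign hodd π hπ a b c hb1 (fun h => hb (hb1.trans h)) hc1
      (fun h => hc (hc1.trans h.symm))
  by_cases hP : ∀ a b, π (a * b) = π a * π b
  · exact ⟨MulEquiv.mk' π hP⟩
  by_cases hN : ∀ a b, π (a * b) = π b * π a
  · refine ⟨MulEquiv.mk' ((Equiv.inv G).trans π) ?_⟩
    intro x y
    simp only [Equiv.trans_apply, Equiv.inv_apply, mul_inv_rev]
    exact hN _ _
  exfalso
  push Not at hP hN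
  obtain ⟨d, c, hdc⟩ := hP
  obtain ⟨a, b, hab⟩ := hN
  have Pa : ∀ x, π (a * x) = π a * π x := by
    rcases loc a with h | h
    · exact h
    · exact absurd (h b) hab
  have Nd : ∀ x, π (d * x) = π x * π d := by
    rcases loc d with h | h
    · exact absurd (h c) hdc
    · exact h
  have hab' : π a * π b ≠ π b * π a := fun h => hab ((Pa b).trans h)
  have hdc' : π d * π c ≠ π c * π d := fun h => hdc ((Nd c).trans h.symm)
  have hba : π (b * a) = π b * π a := by
    rcases hπ a b with h | h
    · exact h.2
    · exact absurd h.1 hab
  have hcd : π (c * d) = π d * π c := by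
    rcases hπ d c with h | h
    · exact absurd h.1 hdc
    · exact h.2
  have Pb : ∀ x, π (b * x) = π b * π x := by
    rcases loc b with h | h
    · exact h
    · exact absurd ((h a).symm.trans hba) hab'
  have Nc : ∀ x, π (c * x) = π x * π c := by
    rcases loc c with h | h
    · exact absurd ((h d).symm.trans hcd) (fun h => hdc' h.symm)
    · exact h
  -- a, b commute with c, d
  have comm : ∀ x y, (∀ z, π (x * z) = π x * π z) → (∀ z, π (y * z) = π z * π y) →
      x * y = y * x ∧ π x * π y = π y * π x := by
    intro x y hx hy
    have h1 : x * y = y * x := π.injective ((hx y).trans (hy x).symm)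
    refine ⟨h1, ?_⟩
    rcases hπ x y with h | h
    · rw [← h.1, ← h.2, h1]
    · rw [← h.1, ← h.2, h1]
  have ad := comm a d Pa Nd
  have bd := comm b d Pb Nd
  have ac := comm a c Pa Nc
  -- the element a d
  have had : π (a * d) = π a * π d := Pa d
  have hnb : π (a * d) * π b ≠ π b * π (a * d) := by
    rw [had]
    intro h
    apply hab'
    have h1 : π a * π d * π b = (π a * π b) * π d := by
      rw [mul_assoc, ← bd.2, ← mul_assoc]
    rw [h1, ← mul_assoc] at h
    exact mul_right_cancel h
  have Pad : ∀ x, π (a * d * x) = π (a * d) * π x := by
    rcases loc (a * d) with h | h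
    · exact h
    · exfalso
      have h1 := h b
      rcases hπ b (a * d) with h2 | h2
      · exact hnb (h2.2.symm.trans h1)
      · exact hnb (h2.1.symm.trans (Pb (a * d)))
  have h1 := comm (a * d) c Pad Nc
  apply hdc'
  have h2 : a * (d * c) = a * (c * d) := by
    rw [← mul_assoc, h1.1, ← mul_assoc, ← mul_assoc, ac.1]
  have h3 := mul_left_cancel h2
  have h4 := congrArg π h3
  rw [Nd c, hcd] at h4
  exact h4.symm

end Pool.Agent.Helper44.GM
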